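import Mathlib

/-!
# A quadratic cycle of a finite field of odd order

`phi a b` multiplies the squares by `a` and the nonsquares by `b`.
-/

namespace Pool.Agent.H17.DS

variable {F : Type} [Field F] [Fintype F] [DecidableEq F]

/-- multiply nonzero squares by `a`, everything else by `b` -/
noncomputable def phi (a b x : F) : F := if quadraticChar F x = 1 then a * x else b * x

theorem phi_zero (a b : F) : phi a b 0 = 0 := by
  unfold phi; split_ifs <;> simp

theorem phi_sq {a b x : F} (h : quadraticChar F x = 1) : phi a b x = a * x := by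
  unfold phi; rw [if_pos h]

theorem phi_nsq {a b x : F} (h : quadraticChar F x ≠ 1) : phi a b x = b * x := by
  unfold phi; rw [if_neg h]

theorem chi_cases (x : F) : x = 0 ∨ quadraticChar F x = 1 ∨ quadraticChar F x = -1 := by
  by_cases hx : x = 0
  · exact Or.inl hx
  · exact Or.inr (quadraticChar_dichotomy hx)

theorem ne_zero_of_chi {x : F} {e : ℤ} (he : e ≠ 0) (h : quadraticChar F x = e) : x ≠ 0 := by
  rintro rfl
  rw [quadraticChar_zero] at h
  exact he h.symm

theorem phi_phi {a b : F} (ha : quadraticChar F a = -1) (hb : quadraticChar F b = -1) (x : F) :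
    phi a b (phi a b x) = a * b * x := by
  rcases chi_cases x with rfl | h | h
  · simp [phi_zero]
  · rw [phi_sq h]
    have h2 : quadraticChar F (a * x) ≠ 1 := by rw [map_mul, ha, h]; norm_num
    rw [phi_nsq h2]; ring
  · have h1 : quadraticChar F x ≠ 1 := by rw [h]; norm_num
    rw [phi_nsq h1]
    have h2 : quadraticChar F (b * x) = 1 := by rw [map_mul, hb, h]; norm_num
    rw [phi_sq h2]; ring

theorem chi_phi {a b : F} (ha : quadraticChar F a = -1) (hb : quadraticChar F b = -1) (x : F) :
    quadraticChar F (phi a b x) = - quadraticChar F x := by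
  rcases chi_cases x with rfl | h | h
  · simp [phi_zero]
  · rw [phi_sq h, map_mul, ha]; ring
  · have h1 : quadraticChar F x ≠ 1 := by rw [h]; norm_num
    rw [phi_nsq h1, map_mul, hb]; ring

/-- the data of a good pair -/
structure Good (a b : F) : Prop where
  ha : quadraticChar F a = -1
  hb : quadraticChar F b = -1
  hab : a ≠ b
  hp : a * b ≠ 1
  hc : quadraticChar F (a - 1) = quadraticChar F (b - 1)
  gen : ∀ x : F, quadraticChar F x = 1 → ∃ i : ℕ, (a * b) ^ i = x

theorem Good.a_ne {a b : F} (h : Good a b) : a ≠ 0 := ne_zero_of_chi (by norm_num) h.ha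

theorem Good.b_ne {a b : F} (h : Good a b) : b ≠ 0 := ne_zero_of_chi (by norm_num) h.hb

theorem Good.a_ne_one {a b : F} (h : Good a b) : a ≠ 1 := by
  rintro rfl
  have := h.ha
  rw [map_one] at this
  norm_num at this

theorem Good.b_ne_one {a b : F} (h : Good a b) : b ≠ 1 := by
  rintro rfl
  have := h.hb
  rw [map_one] at this
  norm_num at this

theorem phi_inj {a b : F} (h : Good a b) : Function.Injective (phi a b) := by
  intro x y hxy
  have h2 := congrArg (phi a b) hxy
  rw [phi_phi h.ha h.hb, phi_phi h.ha h.hb] at h2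
  exact mul_left_cancel₀ (mul_ne_zero h.a_ne h.b_ne) h2

/-- `phi a b` as a permutation -/
noncomputable def P {a b : F} (h : Good a b) : Equiv.Perm F :=
  Equiv.ofBijective (phi a b) (Finite.injective_iff_bijective.1 (phi_inj h))

theorem P_apply {a b : F} (h : Good a b) (x : F) : P h x = phi a b x := rfl

/-- `x ↦ phi x - x` is injective -/
theorem diff_inj {a b : F} (h : Good a b) : Function.Injective (fun x => phi a b x - x) := by
  have ha1 : a - 1 ≠ 0 := sub_ne_zero.2 h.a_ne_one
  have hb1 : b - 1 ≠ 0 := sub_ne_zero.2 h.b_ne_one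
  have key : ∀ x : F, quadraticChar F (phi a b x - x) = quadraticChar F (a - 1) * quadraticChar F x := by
    intro x
    rcases chi_cases x with rfl | hx | hx
    · simp [phi_zero]
    · rw [phi_sq hx, ← map_mul]; congr 1; ring
    · have h1 : quadraticChar F x ≠ 1 := by rw [hx]; norm_num
      rw [phi_nsq h1, h.hc, ← map_mul]; congr 1; ring
  have hca : quadraticChar F (a - 1) ≠ 0 := by
    intro h0; exact ha1 (quadraticChar_eq_zero_iff.1 h0)
  intro x y hxy
  have hxy' : phi a b x - x = phi a b y - y := hxy
  have hchi : quadraticChar F x = quadraticChar F y := by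
    have := congrArg (quadraticChar F) hxy'
    rw [key, key] at this
    exact mul_left_cancel₀ hca this
  by_cases hx : quadraticChar F x = 1
  · have hy : quadraticChar F y = 1 := by rw [← hchi]; exact hx
    rw [phi_sq hx, phi_sq hy] at hxy'
    have : (a - 1) * x = (a - 1) * y := by linear_combination hxy'
    exact mul_left_cancel₀ ha1 this
  · have hy : quadraticChar F y ≠ 1 := by rw [← hchi]; exact hx
    rw [phi_nsq hx, phi_nsq hy] at hxy'
    have : (b - 1) * x = (b - 1) * y := by linear_combination hxy'
    exact mul_left_cancel₀ hb1 this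

theorem P_pow_even {a b : F} (h : Good a b) (i : ℕ) (x : F) :
    ((P h) ^ (2 * i)) x = (a * b) ^ i * x := by
  induction i with
  | zero => simp
  | succ n ih =>
    have : 2 * (n + 1) = 2 + 2 * n := by ring
    rw [this, pow_add, Equiv.Perm.mul_apply, ih, pow_two, Equiv.Perm.mul_apply, P_apply, P_apply,
      phi_phi h.ha h.hb]
    ring

/-- one cycle on the nonzero elements -/
theorem reach {a b : F} (h : Good a b) {x : F} (hx : x ≠ 0) : ∃ i : ℕ, ((P h) ^ i) 1 = x := by
  have h1 : quadraticChar F (1 : F) = 1 := map_one _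
  rcases chi_cases x with rfl | hx1 | hx1
  · exact absurd rfl hx
  · obtain ⟨i, hi⟩ := h.gen x hx1
    exact ⟨2 * i, by rw [P_pow_even, mul_one, hi]⟩
  · have h2 : quadraticChar F (x * a⁻¹) = 1 := by
      have h3 : quadraticChar F (x * a⁻¹ * a) = -1 := by
        rw [inv_mul_cancel_right₀ h.a_ne]; exact hx1
      rw [map_mul, h.ha] at h3
      linarith
    obtain ⟨i, hi⟩ := h.gen _ h2
    refine ⟨1 + 2 * i, ?_⟩
    rw [pow_add, Equiv.Perm.mul_apply, P_pow_even, mul_one, hi, pow_one, P_apply, phi_sq h2]
    field_simp [h.a_ne]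

end Pool.Agent.H17.DS
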