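import Pool.Agent.H17.DS.Core

/-!
# Good pairs exist in every field of odd order `q ≥ 11`
-/

namespace Pool.Agent.H17.DS

theorem exists_k (m : ℕ) (h5 : 5 ≤ m) (h6 : m ≠ 6) :
    ∃ k : ℕ, 3 ≤ k ∧ k % 2 = 1 ∧ Nat.Coprime k m ∧ ¬ m ∣ k - 1 ∧ ¬ m ∣ k + 1 := by
  rcases Nat.even_or_odd' m with ⟨l, rfl | rfl⟩
  · rcases Nat.even_or_odd' l with ⟨r, rfl | rfl⟩
    · -- m = 4 r
      refine ⟨2 * r + 1, by omega, by omega, ?_, ?_, ?_⟩
      · have h1 : Nat.Coprime (2 * r + 1) 2 := by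
          rw [Nat.coprime_two_right, Nat.odd_iff]; omega
        have h2 : Nat.Coprime (2 * r + 1) r := by
          rw [Nat.coprime_comm, Nat.coprime_mul_right_add_right]; norm_num
        exact h1.mul_right (h1.mul_right h2)
      · intro hd
        have := Nat.le_of_dvd (by omega) hd
        omega
      · intro hd
        have := Nat.le_of_dvd (by omega) hd
        omega
    · -- m = 2 l, l = 2 r + 1
      refine ⟨2 * r + 1 + 2, by omega, by omega, ?_, ?_, ?_⟩
      · have h1 : Nat.Coprime (2 * r + 1 + 2) 2 := by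
          rw [Nat.coprime_two_right, Nat.odd_iff]; omega
        have h2 : Nat.Coprime (2 * r + 1 + 2) (2 * r + 1) := by
          rw [Nat.coprime_comm, Nat.coprime_self_add_right]
          rw [Nat.coprime_two_right, Nat.odd_iff]; omega
        exact h1.mul_right h2
      · intro hd
        have := Nat.le_of_dvd (by omega) hd
        omega
      · intro hd
        have := Nat.le_of_dvd (by omega) hd
        omega
  · -- m = 2 l + 1
    refine ⟨2 * l + 1 + 2, by omega, by omega, ?_, ?_, ?_⟩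
    · rw [Nat.coprime_comm, Nat.coprime_self_add_right, Nat.coprime_two_right, Nat.odd_iff]; omega
    · intro hd
      have h1 : 2 * l + 1 ∣ 2 := by
        have h2 : 2 * l + 1 + 2 - 1 = (2 * l + 1) + 1 := by omega
        rw [h2] at hd
        have := (Nat.dvd_add_right (dvd_refl (2 * l + 1))).1 hd
        have h3 := Nat.le_of_dvd one_pos this
        omega
      have := Nat.le_of_dvd (by norm_num) h1
      omega
    · intro hd
      have h2 : 2 * l + 1 + 2 + 1 = (2 * l + 1) + 3 := by omega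
      rw [h2] at hd
      have h3 := (Nat.dvd_add_right (dvd_refl (2 * l + 1))).1 hd
      have := Nat.le_of_dvd (by norm_num) h3
      omega

variable {F : Type} [Field F] [Fintype F] [DecidableEq F]

theorem chi_gen (h2 : ringChar F ≠ 2) {u : Fˣ} (hu : ∀ x : Fˣ, x ∈ Subgroup.zpowers u) :
    quadraticChar F (u : F) = -1 := by
  rcases quadraticChar_dichotomy (F := F) u.ne_zero with h | h
  · exfalso
    obtain ⟨x, hx⟩ := quadraticChar_exists_neg_one (F := F) h2
    have hx0 : x ≠ 0 := ne_zero_of_chi (by norm_num) hx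
    obtain ⟨e, he⟩ := hu (Units.mk0 x hx0)
    obtain ⟨y, hy⟩ := (quadraticChar_one_iff_isSquare u.ne_zero).1 h
    have hy0 : y ≠ 0 := by
      rintro rfl
      rw [mul_zero] at hy
      exact u.ne_zero hy
    have h3 : u = (Units.mk0 y hy0) ^ 2 := by
      apply Units.ext; simp [hy, pow_two]
    have h4 : x = (((Units.mk0 y hy0) ^ e : Fˣ) : F) ^ 2 := by
      have h5 := congrArg (fun w : Fˣ => (w : F)) he
      simp only [Units.val_mk0] at h5
      rw [← h5, h3, ← Units.val_pow_eq_pow_val, ← zpow_natCast, ← zpow_natCast, ← zpow_mul, ← zpow_mul,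
        mul_comm]
    rw [h4, quadraticChar_sq_one' (Units.ne_zero _)] at hx
    norm_num at hx
  · exact h

theorem chi_odd (h2 : ringChar F ≠ 2) {u : Fˣ} (hu : ∀ x : Fˣ, x ∈ Subgroup.zpowers u) {e : ℤ}
    (he : e % 2 = 1) : quadraticChar F ((u ^ e : Fˣ) : F) = -1 := by
  obtain ⟨n, rfl⟩ : ∃ n, e = n * 2 + 1 := ⟨e / 2, by omega⟩
  have h3 : ((u ^ (n * 2 + 1) : Fˣ) : F) = ((u ^ n : Fˣ) : F) ^ 2 * (u : F) := by
    rw [zpow_add, zpow_mul, zpow_one, Units.val_mul]
    congr 1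
  rw [h3, map_mul, quadraticChar_sq_one' (Units.ne_zero _), chi_gen h2 hu, one_mul]

theorem mk_good (h2 : ringChar F ≠ 2) {u : Fˣ} (hu : ∀ x : Fˣ, x ∈ Subgroup.zpowers u)
    (hbig : 2 < orderOf u) {e f j : ℤ} (he : e % 2 = 1) (hf : f % 2 = 1) (hef : e + f = j * 2)
    (hj : IsCoprime j (orderOf u : ℤ)) (hne : ¬ (orderOf u : ℤ) ∣ e - f)
    (hc : quadraticChar F (((u ^ e : Fˣ) : F) - 1) = quadraticChar F (((u ^ f : Fˣ) : F) - 1)) :
    Good ((u ^ e : Fˣ) : F) ((u ^ f : Fˣ) : F) := by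
  have hprod : ((u ^ e : Fˣ) : F) * ((u ^ f : Fˣ) : F) = (((u ^ j) ^ 2 : Fˣ) : F) := by
    rw [← Units.val_mul, ← zpow_add, hef, zpow_mul]; rfl
  have hgen : ∀ x : F, quadraticChar F x = 1 → ∃ i : ℕ, (((u ^ e : Fˣ) : F) * ((u ^ f : Fˣ) : F)) ^ i = x := by
    intro x hx
    have hx0 : x ≠ 0 := ne_zero_of_chi (by norm_num) hx
    obtain ⟨y, hy⟩ := (quadraticChar_one_iff_isSquare hx0).1 hx
    have hy0 : y ≠ 0 := by
      rintro rfl
      rw [mul_zero] at hy
      exact hx0 hy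
    obtain ⟨l, hl⟩ := hu (Units.mk0 y hy0)
    have hl' : u ^ l = Units.mk0 y hy0 := hl
    obtain ⟨s, t, hst⟩ := hj
    have h3 : u ^ l = (u ^ j) ^ (s * l) := by
      rw [← zpow_mul]
      rw [zpow_eq_zpow_iff_modEq]
      apply (Int.modEq_iff_dvd).2
      refine ⟨- (t * l), ?_⟩
      linear_combination l * hst
    have h4 : Units.mk0 y hy0 ∈ Subgroup.zpowers (u ^ j) := ⟨s * l, by rw [← hl', h3]⟩
    have h5 := (isOfFinOrder_of_finite (u ^ j)).mem_powers_iff_mem_zpowers.2 h4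
    obtain ⟨i, hi⟩ := h5
    have hi' : (u ^ j) ^ i = Units.mk0 y hy0 := hi
    refine ⟨i, ?_⟩
    rw [hprod, ← Units.val_pow_eq_pow_val, ← pow_mul, mul_comm, pow_mul, hi', Units.val_pow_eq_pow_val,
      Units.val_mk0, hy, pow_two]
  refine ⟨chi_odd h2 hu he, chi_odd h2 hu hf, ?_, ?_, hc, hgen⟩
  · intro h
    apply hne
    have h3 : u ^ e = u ^ f := Units.ext h
    rw [zpow_eq_zpow_iff_modEq] at h3
    exact (Int.modEq_iff_dvd.1 h3.symm)
  · intro h
    obtain ⟨i, hi⟩ := hgen ((u : F) ^ 2) (quadraticChar_sq_one' u.ne_zero)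
    rw [h, one_pow] at hi
    have h3 : u ^ 2 = 1 := by apply Units.ext; simp [hi.symm]
    have := orderOf_dvd_of_pow_eq_one h3
    have := Nat.le_of_dvd (by norm_num) this
    omega

theorem exists_good (h2 : ringChar F ≠ 2) (h11 : 11 ≤ Fintype.card F) (h13 : Fintype.card F ≠ 13) :
    ∃ a b : F, Good a b := by
  obtain ⟨u, hu⟩ := IsCyclic.exists_generator (α := Fˣ)
  have hodd := FiniteField.odd_card_of_char_ne_two h2
  have hord : orderOf u = Fintype.card F - 1 := by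
    rw [orderOf_eq_card_of_forall_mem_zpowers hu, Nat.card_eq_fintype_card, Fintype.card_units]
  obtain ⟨m, hm⟩ : ∃ m, orderOf u = 2 * m := ⟨(Fintype.card F - 1) / 2, by omega⟩
  have hm5 : 5 ≤ m := by omega
  have hm6 : m ≠ 6 := by omega
  obtain ⟨k, hk3, hk1, hkm, hk4, hk5⟩ := exists_k m hm5 hm6
  have hk2m : IsCoprime (k : ℤ) ((orderOf u : ℕ) : ℤ) := by
    rw [Nat.isCoprime_iff_coprime, hm]
    have : Nat.Coprime k 2 := by rw [Nat.coprime_two_right, Nat.odd_iff]; exact hk1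
    exact this.mul_right hkm
  have hbig : 2 < orderOf u := by omega
  have n1 : ((u ^ ((k : ℤ) + 2) : Fˣ) : F) - 1 ≠ 0 := by
    intro h
    have h1 := chi_odd h2 hu (e := (k : ℤ) + 2) (by omega)
    rw [sub_eq_zero.1 h, map_one] at h1
    norm_num at h1
  have n2 : ((u ^ (-(k : ℤ)) : Fˣ) : F) - 1 ≠ 0 := by
    intro h
    have h1 := chi_odd h2 hu (e := -(k : ℤ)) (by omega)
    rw [sub_eq_zero.1 h, map_one] at h1
    norm_num at h1
  have n3 : ((u ^ ((k : ℤ) - 2) : Fˣ) : F) - 1 ≠ 0 := by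
    intro h
    have h1 := chi_odd h2 hu (e := (k : ℤ) - 2) (by omega)
    rw [sub_eq_zero.1 h, map_one] at h1
    norm_num at h1
  have g12 : quadraticChar F (((u ^ ((k : ℤ) + 2) : Fˣ) : F) - 1) = quadraticChar F (((u ^ (-(k : ℤ)) : Fˣ) : F) - 1) →
      Good ((u ^ ((k : ℤ) + 2) : Fˣ) : F) ((u ^ (-(k : ℤ)) : Fˣ) : F) := by
    intro hc
    refine mk_good h2 hu hbig (j := 1) (by omega) (by omega) (by ring) isCoprime_one_left ?_ hc
    intro hd
    rw [hm] at hd
    apply hk5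
    have h3 : ((2 * m : ℕ) : ℤ) ∣ ((2 * (k + 1) : ℕ) : ℤ) := by
      have : ((2 * (k + 1) : ℕ) : ℤ) = (k : ℤ) + 2 - -(k : ℤ) := by push_cast; ring
      rw [this]; exact hd
    have h4 := Int.natCast_dvd_natCast.1 h3
    exact Nat.dvd_of_mul_dvd_mul_left (by norm_num) h4
  have g23 : quadraticChar F (((u ^ (-(k : ℤ)) : Fˣ) : F) - 1) = quadraticChar F (((u ^ ((k : ℤ) - 2) : Fˣ) : F) - 1) →
      Good ((u ^ (-(k : ℤ)) : Fˣ) : F) ((u ^ ((k : ℤ) - 2) : Fˣ) : F) := by
    intro hc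
    refine mk_good h2 hu hbig (j := -1) (by omega) (by omega) (by ring) (isCoprime_one_left.neg_left) ?_ hc
    intro hd
    rw [hm] at hd
    apply hk4
    have h3 : ((2 * m : ℕ) : ℤ) ∣ ((2 * (k - 1) : ℕ) : ℤ) := by
      have : ((2 * (k - 1) : ℕ) : ℤ) = -(-(k : ℤ) - ((k : ℤ) - 2)) := by
        rw [Nat.cast_mul, Nat.cast_sub (by omega)]; push_cast; ring
      rw [this, dvd_neg]; exact hd
    have h4 := Int.natCast_dvd_natCast.1 h3
    exact Nat.dvd_of_mul_dvd_mul_left (by norm_num) h4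
  have g13 : quadraticChar F (((u ^ ((k : ℤ) + 2) : Fˣ) : F) - 1) = quadraticChar F (((u ^ ((k : ℤ) - 2) : Fˣ) : F) - 1) →
      Good ((u ^ ((k : ℤ) + 2) : Fˣ) : F) ((u ^ ((k : ℤ) - 2) : Fˣ) : F) := by
    intro hc
    refine mk_good h2 hu hbig (j := (k : ℤ)) (by omega) (by omega) (by ring) hk2m ?_ hc
    intro hd
    rw [hm] at hd
    have h3 : ((2 * m : ℕ) : ℤ) ∣ ((4 : ℕ) : ℤ) := by
      have : ((4 : ℕ) : ℤ) = (k : ℤ) + 2 - ((k : ℤ) - 2) := by push_cast; ring
      rw [this]; exact hd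
    have h4 := Nat.le_of_dvd (by norm_num) (Int.natCast_dvd_natCast.1 h3)
    omega
  rcases quadraticChar_dichotomy n1 with c1 | c1 <;> rcases quadraticChar_dichotomy n2 with c2 | c2 <;>
    rcases quadraticChar_dichotomy n3 with c3 | c3
  · exact ⟨_, _, g12 (c1.trans c2.symm)⟩
  · exact ⟨_, _, g12 (c1.trans c2.symm)⟩
  · exact ⟨_, _, g13 (c1.trans c3.symm)⟩
  · exact ⟨_, _, g23 (c2.trans c3.symm)⟩
  · exact ⟨_, _, g23 (c2.trans c3.symm)⟩
  · exact ⟨_, _, g13 (c1.trans c3.symm)⟩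
  · exact ⟨_, _, g12 (c1.trans c2.symm)⟩
  · exact ⟨_, _, g12 (c1.trans c2.symm)⟩

instance : Fact (Nat.Prime 13) := ⟨by norm_num⟩

theorem good13 : Good (2 : ZMod 13) 5 where
  ha := by rw [quadraticChar_neg_one_iff_not_isSquare]; decide
  hb := by rw [quadraticChar_neg_one_iff_not_isSquare]; decide
  hab := by decide
  hp := by decide
  hc := by
    have h1 : quadraticChar (ZMod 13) ((2 : ZMod 13) - 1) = 1 := by
      rw [quadraticChar_one_iff_isSquare (by decide)]; decide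
    have h2 : quadraticChar (ZMod 13) ((5 : ZMod 13) - 1) = 1 := by
      rw [quadraticChar_one_iff_isSquare (by decide)]; decide
    rw [h1, h2]
  gen := by
    intro x hx
    have hx0 : x ≠ 0 := ne_zero_of_chi (by norm_num) hx
    rw [quadraticChar_one_iff_isSquare hx0] at hx
    have key : ∀ x : ZMod 13, x ≠ 0 → IsSquare x → ∃ i : Fin 6, ((2 : ZMod 13) * 5) ^ (i : ℕ) = x := by decide
    obtain ⟨i, hi⟩ := key x hx0 hx
    exact ⟨i, hi⟩

end Pool.Agent.H17.DS
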