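import Pool.Agent.H17.DS.Core

/-!
# The square of a good pair is not based on a group
-/

namespace Pool.Agent.H17.DS

variable {F : Type} [Field F] [Fintype F] [DecidableEq F]

omit [Field F] [Fintype F] [DecidableEq F] in
theorem perm_apply_inv (f : Equiv.Perm F) (x : F) : f (f⁻¹ x) = x := by
  rw [← Equiv.Perm.mul_apply, mul_inv_cancel, Equiv.Perm.one_apply]

omit [Field F] [Fintype F] [DecidableEq F] in
theorem perm_inv_apply (f : Equiv.Perm F) (x : F) : f⁻¹ (f x) = x := by
  rw [← Equiv.Perm.mul_apply, inv_mul_cancel, Equiv.Perm.one_apply]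

/-- translation -/
def T (c : F) : Equiv.Perm F := Equiv.addLeft c

theorem T_apply (c x : F) : T c x = c + x := rfl

theorem T_inv_apply (c x : F) : (T c)⁻¹ x = -c + x := by
  rw [Equiv.Perm.inv_eq_iff_eq, T_apply]; ring

/-- row `i` of the square: `x ↦ i + phi (x - i)` -/
noncomputable def row {a b : F} (h : Good a b) (i : F) : Equiv.Perm F := T i * P h * (T i)⁻¹

theorem row_apply {a b : F} (h : Good a b) (i x : F) : row h i x = i + phi a b (x - i) := by
  unfold row
  rw [Equiv.Perm.mul_apply, Equiv.Perm.mul_apply, T_inv_apply, T_apply, P_apply]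
  congr 2
  ring

/-- the square is isotopic to the Cayley table of a group -/
def IsoGroup {α : Type} (L : α → Equiv.Perm α) : Prop :=
  ∃ (G : Type) (_ : Group G) (r c s : α ≃ G), ∀ i j, s (L i j) = r i * c j

theorem phi_mul {a b u : F} (hu : quadraticChar F u = 1) (x : F) : phi a b (u * x) = u * phi a b x := by
  unfold phi
  rw [map_mul, hu, one_mul]
  split_ifs <;> ring

section
variable {G : Type} [Group G] (s : F ≃ G)

/-- the regular group -/
def K : Subgroup (Equiv.Perm F) where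
  carrier := {z | ∃ g : G, ∀ x, s (z x) = g * s x}
  one_mem' := ⟨1, fun x => by simp⟩
  mul_mem' := by
    rintro z w ⟨g, hg⟩ ⟨k, hk⟩
    exact ⟨g * k, fun x => by rw [Equiv.Perm.mul_apply, hg, hk, mul_assoc]⟩
  inv_mem' := by
    rintro z ⟨g, hg⟩
    refine ⟨g⁻¹, fun x => ?_⟩
    have h1 := hg (z⁻¹ x)
    rw [perm_apply_inv] at h1
    rw [h1, inv_mul_cancel_left]

theorem mem_K {z : Equiv.Perm F} : z ∈ K s ↔ ∃ g : G, ∀ x, s (z x) = g * s x := Iff.rfl

theorem K_free {z : Equiv.Perm F} (hz : z ∈ K s) {x : F} (hx : z x = x) : z = 1 := by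
  obtain ⟨g, hg⟩ := hz
  have h1 := hg x
  rw [hx] at h1
  have h2 : g = 1 := by
    have := (mul_eq_right (a := g) (b := s x)).1 h1.symm
    exact this
  ext y
  rw [Equiv.Perm.one_apply]
  apply s.injective
  rw [hg, h2, one_mul]

theorem K_ext {z w : Equiv.Perm F} (hz : z ∈ K s) (hw : w ∈ K s) {x : F} (hx : z x = w x) : z = w := by
  have h1 : w⁻¹ * z ∈ K s := (K s).mul_mem ((K s).inv_mem hw) hz
  have h2 : (w⁻¹ * z) x = x := by
    rw [Equiv.Perm.mul_apply, hx, perm_inv_apply]
  have h3 := K_free s h1 h2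
  exact (inv_mul_eq_one.1 h3).symm

theorem K_card : Nat.card (K s) = Nat.card F := by
  apply Nat.card_congr
  refine Equiv.ofBijective (fun z : K s => (z : Equiv.Perm F) 0) ⟨?_, ?_⟩
  · intro z w h
    exact Subtype.ext (K_ext s z.2 w.2 h)
  · intro y
    refine ⟨⟨(s.trans (Equiv.mulLeft (s y * (s 0)⁻¹))).trans s.symm, ?_⟩, ?_⟩
    · exact ⟨s y * (s 0)⁻¹, fun x => by simp [mul_assoc]⟩
    · simp

end

theorem not_iso {a b : F} (h : Good a b) (h2 : ringChar F ≠ 2) : ¬ IsoGroup (row h) := by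
  rintro ⟨G, _, r, c, s, H⟩
  -- rows differ by elements of K
  have k1 : ∀ i j, row h i * (row h j)⁻¹ ∈ K s := by
    intro i j
    refine ⟨r i * (r j)⁻¹, fun x => ?_⟩
    have h1 := H j ((row h j)⁻¹ x)
    rw [perm_apply_inv] at h1
    rw [Equiv.Perm.mul_apply, H, h1]
    group
  have k3 : ∀ z ∈ K s, ∃ i, z = row h i * (row h 0)⁻¹ := by
    rintro z ⟨g, hg⟩
    refine ⟨r.symm (g * r 0), ?_⟩
    refine K_ext s ⟨g, hg⟩ (k1 _ _) (x := row h 0 0) ?_
    apply s.injective
    rw [hg, Equiv.Perm.mul_apply, perm_inv_apply, H, H, Equiv.apply_symm_apply, mul_assoc]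
  have conjT : ∀ (t i : F), T t * row h i * (T t)⁻¹ = row h (t + i) := by
    intro t i
    ext x
    rw [Equiv.Perm.mul_apply, Equiv.Perm.mul_apply, T_inv_apply, T_apply, row_apply, row_apply]
    have : -t + x - i = x - (t + i) := by ring
    rw [this]; ring
  have k4 : ∀ (t : F) (z : Equiv.Perm F), z ∈ K s → T t * z * (T t)⁻¹ ∈ K s := by
    intro t z hz
    obtain ⟨i, rfl⟩ := k3 z hz
    have : T t * (row h i * (row h 0)⁻¹) * (T t)⁻¹ = row h (t + i) * (row h (t + 0))⁻¹ := by
      rw [← conjT, ← conjT]; group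
    rw [this]
    exact k1 _ _
  -- multiplication by squares
  let M : (u : F) → u ≠ 0 → Equiv.Perm F := fun u hu => Equiv.mulLeft₀ u hu
  have M_apply : ∀ u hu x, M u hu x = u * x := fun u hu x => rfl
  have M_inv : ∀ u hu x, (M u hu)⁻¹ x = u⁻¹ * x := by
    intro u hu x
    rw [Equiv.Perm.inv_eq_iff_eq, M_apply, mul_inv_cancel_left₀ hu]
  have conjM : ∀ (u : F) (hu : u ≠ 0), quadraticChar F u = 1 → ∀ i, M u hu * row h i * (M u hu)⁻¹ = row h (u * i) := by
    intro u hu hs i
    ext x
    rw [Equiv.Perm.mul_apply, Equiv.Perm.mul_apply, M_inv, M_apply, row_apply, row_apply, mul_add, ← phi_mul hs]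
    congr 2
    rw [mul_sub, mul_inv_cancel_left₀ hu]
  have k5 : ∀ (u : F) (hu : u ≠ 0), quadraticChar F u = 1 → ∀ z : Equiv.Perm F, z ∈ K s →
      M u hu * z * (M u hu)⁻¹ ∈ K s := by
    intro u hu hs z hz
    obtain ⟨i, rfl⟩ := k3 z hz
    have : M u hu * (row h i * (row h 0)⁻¹) * (M u hu)⁻¹ = row h (u * i) * (row h (u * 0))⁻¹ := by
      rw [← conjM u hu hs, ← conjM u hu hs]; group
    rw [this]
    exact k1 _ _
  -- a translation in K
  obtain ⟨t0, ht0, htK⟩ : ∃ t : F, t ≠ 0 ∧ T t ∈ K s := by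
    obtain ⟨p, n, hp, hn⟩ : ∃ p n : ℕ, p.Prime ∧ Nat.card F = p ^ n ∧ 0 < n := by
      obtain ⟨n, hp, hn⟩ := FiniteField.card F (ringChar F)
      exact ⟨ringChar F, n, hp, by rw [Nat.card_eq_fintype_card, hn], n.2⟩
    haveI : Fact p.Prime := ⟨hp⟩
    have hG : IsPGroup p (Multiplicative F) := IsPGroup.of_card (n := n) (by
      rw [← hn.1]; exact Nat.card_congr Multiplicative.toAdd)
    letI act : MulAction (Multiplicative F) (K s) :=
      { smul := fun t z => ⟨T t.toAdd * z * (T t.toAdd)⁻¹, k4 _ _ z.2⟩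
        one_smul := by
          intro z
          apply Subtype.ext
          change T (0 : F) * (z : Equiv.Perm F) * (T (0 : F))⁻¹ = z
          have h0 : T (0 : F) = 1 := by ext x; simp [T_apply]
          rw [h0]; simp
        mul_smul := by
          intro t t' z
          apply Subtype.ext
          change T (t.toAdd + t'.toAdd) * (z : Equiv.Perm F) * (T (t.toAdd + t'.toAdd))⁻¹ =
            T t.toAdd * (T t'.toAdd * (z : Equiv.Perm F) * (T t'.toAdd)⁻¹) * (T t.toAdd)⁻¹
          have h0 : T (t.toAdd + t'.toAdd) = T t.toAdd * T t'.toAdd := by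
            ext x; simp [T_apply, add_assoc]
          rw [h0]; group }
    have hdvd : p ∣ Nat.card (K s) := by
      rw [K_card, hn.1]; exact dvd_pow_self _ hn.2.ne'
    have hfix1 : (1 : K s) ∈ MulAction.fixedPoints (Multiplicative F) (K s) := by
      intro t
      apply Subtype.ext
      change T t.toAdd * ((1 : K s) : Equiv.Perm F) * (T t.toAdd)⁻¹ = ((1 : K s) : Equiv.Perm F)
      simp
    obtain ⟨z, hz, hz1⟩ := hG.exists_fixed_point_of_prime_dvd_card_of_fixed_point (K s) hdvd hfix1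
    have hz' : ∀ t : F, T t * (z : Equiv.Perm F) * (T t)⁻¹ = z := fun t =>
      congrArg Subtype.val (hz (Multiplicative.ofAdd t))
    have hz2 : ∀ t : F, (z : Equiv.Perm F) t = T ((z : Equiv.Perm F) 0) t := by
      intro t
      have h1 := congrArg (fun w : Equiv.Perm F => w t) (hz' t)
      simp only [Equiv.Perm.mul_apply, T_inv_apply, T_apply] at h1
      rw [T_apply, ← h1]
      have : -t + t = 0 := by ring
      rw [this]; ring
    have hz3 : (z : Equiv.Perm F) = T ((z : Equiv.Perm F) 0) := Equiv.ext hz2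
    refine ⟨(z : Equiv.Perm F) 0, ?_, by rw [← hz3]; exact z.2⟩
    intro h0
    apply hz1
    apply Subtype.ext
    exact (K_free s z.2 h0).symm
  have tsub : ∀ x y : F, T x ∈ K s → T y ∈ K s → T (x - y) ∈ K s := by
    intro x y hx hy
    have h1 : T (x - y) = T x * (T y)⁻¹ := by
      ext w
      rw [Equiv.Perm.mul_apply, T_inv_apply, T_apply, T_apply]; ring
    rw [h1]
    exact (K s).mul_mem hx ((K s).inv_mem hy)
  have tsq : ∀ (x v : F), T x ∈ K s → T (v ^ 2 * x) ∈ K s := by
    intro x v hx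
    by_cases hv : v = 0
    · have h1 : T (v ^ 2 * x) = 1 := by ext w; simp [hv, T_apply]
      rw [h1]; exact (K s).one_mem
    · have h1 := k5 (v ^ 2) (pow_ne_zero 2 hv) (quadraticChar_sq_one' hv) _ hx
      have h3 : M (v ^ 2) (pow_ne_zero 2 hv) * T x * (M (v ^ 2) (pow_ne_zero 2 hv))⁻¹ = T (v ^ 2 * x) := by
        ext w
        rw [Equiv.Perm.mul_apply, Equiv.Perm.mul_apply, M_inv, M_apply, T_apply, T_apply, mul_add,
          mul_inv_cancel_left₀ (pow_ne_zero 2 hv)]
      rw [← h3]; exact h1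
  have two : (2 : F) ≠ 0 := Ring.two_ne_zero h2
  have sqd : ∀ t : F, t = ((t + 1) / 2) ^ 2 - ((t - 1) / 2) ^ 2 := by
    intro t
    field_simp
    ring
  have tall : ∀ y : F, T y ∈ K s := by
    intro y
    have h1 := tsub _ _ (tsq t0 ((y / t0 + 1) / 2) htK) (tsq t0 ((y / t0 - 1) / 2) htK)
    have h3 : ((y / t0 + 1) / 2) ^ 2 * t0 - ((y / t0 - 1) / 2) ^ 2 * t0 = y := by
      rw [← sub_mul, ← sqd]; field_simp
    rw [h3] at h1; exact h1
  -- rows differ by translations
  have add : ∀ i x : F, i + phi a b (x - i) = (i + phi a b (0 - i)) + phi a b x := by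
    intro i x
    have hz := k1 i 0
    have h1 : row h i * (row h 0)⁻¹ = T ((row h i * (row h 0)⁻¹) 0) := by
      refine K_ext s hz (tall _) (x := 0) ?_
      rw [T_apply, add_zero]
    have h0 : row h 0 0 = 0 := by rw [row_apply]; simp [phi_zero]
    have h3 : ∀ y, row h i y = row h i 0 + row h 0 y := by
      intro y
      have h4 := congrArg (fun w : Equiv.Perm F => w (row h 0 y)) h1
      simp only [Equiv.Perm.mul_apply, T_apply] at h4
      rw [perm_inv_apply] at h4
      have h5 : (row h 0)⁻¹ 0 = 0 := by rw [Equiv.Perm.inv_eq_iff_eq]; exact h0.symm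
      rw [h5] at h4
      exact h4
    have h6 := h3 x
    rw [row_apply, row_apply, row_apply] at h6
    rw [h6]; simp
  have add2 : ∀ x y : F, phi a b (x + y) = phi a b x + phi a b y := by
    intro x y
    have h1 := add (-y) x
    rw [sub_neg_eq_add, zero_sub, neg_neg] at h1
    have : phi a b (x + y) = phi a b y + phi a b x := by linear_combination h1
    rw [this]; ring
  have hphi0 : phi a b (0 : F) = 0 := phi_zero a b
  have neg : ∀ x : F, phi a b (-x) = - phi a b x := by
    intro x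
    have h1 := add2 x (-x)
    rw [add_neg_cancel, hphi0] at h1
    linear_combination -h1
  have sqv : ∀ v : F, phi a b (v ^ 2) = a * v ^ 2 := by
    intro v
    by_cases hv : v = 0
    · subst hv; simp [phi_zero]
    · exact phi_sq (quadraticChar_sq_one' hv)
  have all : ∀ t : F, phi a b t = a * t := by
    intro t
    conv_lhs => rw [sqd t]
    rw [sub_eq_add_neg, add2, neg, sqv, sqv, ← sub_eq_add_neg, ← mul_sub, ← sqd]
  have h7 := all a
  rw [phi_nsq (by rw [h.ha]; norm_num)] at h7
  exact h.hab (mul_right_cancel₀ h.a_ne h7).symm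

end Pool.Agent.H17.DS
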