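import Mathlib

/-!
# A D-type latin square of order 9 with latin square, not based on a group (found by a SAT solver)
-/

namespace Pool.Agent.H17.DS.Nine

def A : Fin 9 → Fin 9 → Fin 9 :=
![![0, 2, 3, 4, 5, 6, 7, 8, 1],
  ![8, 1, 5, 0, 2, 7, 4, 3, 6],
  ![4, 0, 2, 8, 3, 1, 5, 6, 7],
  ![5, 7, 6, 3, 1, 4, 8, 2, 0],
  ![7, 6, 8, 1, 4, 2, 0, 5, 3],
  ![6, 3, 0, 7, 8, 5, 1, 4, 2],
  ![3, 5, 1, 2, 7, 8, 6, 0, 4],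
  ![1, 8, 4, 6, 0, 3, 2, 7, 5],
  ![2, 4, 7, 5, 6, 0, 3, 1, 8]]

def B : Fin 9 → Fin 9 → Fin 9 :=
![![0, 8, 1, 2, 3, 4, 5, 6, 7],
  ![3, 1, 4, 7, 6, 2, 8, 5, 0],
  ![1, 5, 2, 4, 0, 6, 7, 8, 3],
  ![8, 4, 7, 3, 5, 0, 2, 1, 6],
  ![6, 3, 5, 8, 4, 7, 1, 0, 2],
  ![2, 6, 8, 1, 7, 5, 0, 3, 4],
  ![7, 2, 3, 0, 8, 1, 6, 4, 5],
  ![4, 0, 6, 5, 2, 8, 3, 7, 1],
  ![5, 7, 0, 6, 1, 3, 4, 2, 8]]

theorem BA : ∀ i x, B i (A i x) = x := by decide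

theorem AB : ∀ i x, A i (B i x) = x := by decide

/-- the rows -/
def L (i : Fin 9) : Equiv.Perm (Fin 9) := ⟨A i, B i, BA i, AB i⟩

theorem L_apply (i x : Fin 9) : L i x = A i x := rfl

theorem latin : ∀ j i i', A i j = A i' j → i = i' := by decide

theorem latin2 : ∀ j i i', A i (A i j) = A i' (A i' j) → i = i' := by decide

theorem fix : ∀ i x, A i x = x ↔ x = i := by decide

theorem orbit : ∀ i y, y ≠ i → ∃ k : Fin 8, (A i)^[(k : ℕ)] (i + 1) = y := by decide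

theorem no_coset : ∀ l, ∃ x w, A 1 w = A 0 x ∧ A 0 w ≠ A l x := by decide

end Pool.Agent.H17.DS.Nine
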